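import Mathlib

/-!
Dissipation inequality, part 1: inequalities for two complex numbers, finitely supported vectors
`G → ι → ℂ` (any type `G`, any finite type `ι`), and the `p`-th power of the norm.
-/

open Finset

namespace Pool.Agent.DS

universe u v

/-! ### two numbers -/

theorem conc (p : ℝ) (hp : 1 < p) (hp2 : p < 2) (u v : ℂ) :
    (‖u + v‖ ^ p + ‖u - v‖ ^ p) / 2 ≤ (‖u‖ ^ 2 + ‖v‖ ^ 2) ^ (p / 2) := by
  have h1 : ∀ r : ℝ, 0 ≤ r → r ^ p = (r ^ 2) ^ (p / 2) := fun r hr => by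
    rw [← Real.rpow_natCast, ← Real.rpow_mul hr]
    congr 1
    push_cast
    ring
  have hpar := parallelogram_law_with_norm ℝ u v
  have hcc := Real.concaveOn_rpow (p := p / 2) (by linarith) (by linarith)
  have hA : ‖u + v‖ ^ 2 ∈ Set.Ici (0 : ℝ) := Set.mem_Ici.2 (by positivity)
  have hB : ‖u - v‖ ^ 2 ∈ Set.Ici (0 : ℝ) := Set.mem_Ici.2 (by positivity)
  have hc := hcc.2 hA hB (show (0 : ℝ) ≤ 1 / 2 by norm_num) (show (0 : ℝ) ≤ 1 / 2 by norm_num)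
    (by norm_num)
  simp only [smul_eq_mul] at hc
  rw [h1 _ (norm_nonneg (u + v)), h1 _ (norm_nonneg (u - v))]
  have e : 1 / 2 * ‖u + v‖ ^ 2 + 1 / 2 * ‖u - v‖ ^ 2 = ‖u‖ ^ 2 + ‖v‖ ^ 2 := by
    nlinarith [hpar]
  rw [e] at hc
  linarith

theorem gap (p : ℝ) (hp : 1 < p) (hp2 : p < 2) (a b : ℝ) (hb : 0 ≤ b) (hab : b ≤ a) :
    (a ^ 2 + b ^ 2) ^ (p / 2) ≤ a ^ p + (p / 2) * b ^ p := by
  have hp0 : 0 < p := by linarith
  rcases eq_or_lt_of_le (hb.trans hab) with ha | ha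
  · have : b = 0 := le_antisymm (ha ▸ hab) hb
    subst this
    rw [← ha]
    have h0 : (0 : ℝ) ^ p = 0 := Real.zero_rpow hp0.ne'
    have h1 : ((0 : ℝ) ^ 2 + 0 ^ 2) ^ (p / 2) = 0 := by
      rw [zero_pow two_ne_zero, add_zero, Real.zero_rpow (by positivity)]
    rw [h1, h0]
    norm_num
  · set t : ℝ := b / a with ht
    have ht0 : 0 ≤ t := div_nonneg hb ha.le
    have ht1 : t ≤ 1 := (div_le_one ha).2 hab
    have hb' : b = a * t := by rw [ht]; field_simp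
    have h1 : (1 + t ^ 2) ^ (p / 2) ≤ 1 + p / 2 * t ^ 2 :=
      rpow_one_add_le_one_add_mul_self (by nlinarith) (by linarith) (by linarith)
    have h2 : t ^ 2 ≤ t ^ p := by
      rcases eq_or_lt_of_le ht0 with h | h
      · rw [← h, Real.zero_rpow hp0.ne']; norm_num
      · rw [← Real.rpow_natCast]
        exact Real.rpow_le_rpow_of_exponent_ge h ht1 (by push_cast; linarith)
    have h3 : (a ^ 2 + b ^ 2) ^ (p / 2) = a ^ p * (1 + t ^ 2) ^ (p / 2) := by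
      have : a ^ 2 + b ^ 2 = a ^ 2 * (1 + t ^ 2) := by rw [hb']; ring
      rw [this, Real.mul_rpow (by positivity) (by positivity), ← Real.rpow_natCast,
        ← Real.rpow_mul ha.le]
      congr 2
      push_cast
      ring
    have h4 : b ^ p = a ^ p * t ^ p := by
      rw [hb', Real.mul_rpow ha.le ht0]
    rw [h3, h4]
    have ha' : 0 < a ^ p := Real.rpow_pos_of_pos ha p
    have h5 : a ^ p * (1 + t ^ 2) ^ (p / 2) ≤ a ^ p * (1 + p / 2 * t ^ p) :=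
      mul_le_mul_of_nonneg_left (h1.trans (by nlinarith)) ha'.le
    linarith [h5]

/-- `(1-p/2) min(|u|,|v|)^p ≤ |u|^p+|v|^p-(|u+v|^p+|u-v|^p)/2` -/
theorem cx_gap (p : ℝ) (hp : 1 < p) (hp2 : p < 2) (u v : ℂ) :
    (1 - p / 2) * (min ‖u‖ ‖v‖) ^ p ≤
      ‖u‖ ^ p + ‖v‖ ^ p - (‖u + v‖ ^ p + ‖u - v‖ ^ p) / 2 := by
  have hc := conc p hp hp2 u v
  rcases le_total ‖v‖ ‖u‖ with h | h
  · rw [min_eq_right h]
    have := gap p hp hp2 ‖u‖ ‖v‖ (norm_nonneg _) h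
    linarith
  · rw [min_eq_left h]
    have := gap p hp hp2 ‖v‖ ‖u‖ (norm_nonneg _) h
    rw [add_comm (‖v‖ ^ 2)] at this
    linarith

theorem cx_clark (p : ℝ) (hp : 1 < p) (hp2 : p < 2) (u v : ℂ) :
    ‖u + v‖ ^ p + ‖u - v‖ ^ p ≤ 2 * (‖u‖ ^ p + ‖v‖ ^ p) := by
  have h := cx_gap p hp hp2 u v
  have h2 : 0 ≤ (1 - p / 2) * (min ‖u‖ ‖v‖) ^ p :=
    mul_nonneg (by linarith) (Real.rpow_nonneg (le_min (norm_nonneg _) (norm_nonneg _)) _)
  linarith

theorem cx_min2 (u v : ℂ) :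
    ‖u‖ + ‖v‖ ≤ min ‖u + v‖ ‖u - v‖ + 2 * min ‖u‖ ‖v‖ := by
  have h1 : ‖u‖ ≤ ‖u + v‖ + ‖v‖ := by
    have := norm_sub_le (u + v) v
    simpa using this
  have h2 : ‖v‖ ≤ ‖u + v‖ + ‖u‖ := by
    have := norm_sub_le (u + v) u
    simpa using this
  have h3 : ‖u‖ ≤ ‖u - v‖ + ‖v‖ := by
    have := norm_add_le (u - v) v
    simpa using this
  have h4 : ‖v‖ ≤ ‖u - v‖ + ‖u‖ := by
    have := norm_sub_le (u - v) u
    have e : u - v - u = -v := by ring
    rw [e, norm_neg] at this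
    exact this
  rcases le_total ‖u‖ ‖v‖ with h | h
  · rw [min_eq_left h]
    rcases le_total ‖u + v‖ ‖u - v‖ with h' | h'
    · rw [min_eq_left h']; linarith
    · rw [min_eq_right h']; linarith
  · rw [min_eq_right h]
    rcases le_total ‖u + v‖ ‖u - v‖ with h' | h'
    · rw [min_eq_left h']; linarith
    · rw [min_eq_right h']; linarith

theorem cx_min1 (u v : ℂ) : ‖u‖ ≤ min ‖u + v‖ ‖u - v‖ + min ‖u‖ ‖v‖ := by
  have := cx_min2 u v
  have h : ‖v‖ ≥ min ‖u‖ ‖v‖ := min_le_right _ _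
  linarith

/-! ### vectors -/

/-- vectors -/
abbrev V (G : Type u) (ι : Type v) : Type (max u v) := G → ι → ℂ

variable {G : Type u} {ι : Type v}

/-- finite support -/
def FS (φ : V G ι) : Prop := (Function.support φ).Finite

/-- `p`-th power of the `ℓ^p` norm -/
noncomputable def nrm [Fintype ι] (p : ℝ) (φ : V G ι) : ℝ := ∑' x, ∑ i, ‖φ x i‖ ^ p

/-- the pointwise minimum of the absolute values -/
noncomputable def mn (φ ψ : V G ι) : V G ι := fun x i => ((min ‖φ x i‖ ‖ψ x i‖ : ℝ) : ℂ)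

theorem FS.of_subset {φ : V G ι} {s : Set G} (hs : s.Finite) (h : ∀ x, x ∉ s → φ x = 0) :
    FS φ := by
  refine hs.subset fun x hx => ?_
  by_contra hxs
  exact hx (h x hxs)

theorem FS.zero : FS (0 : V G ι) := by
  unfold FS
  simp

theorem FS.add {φ ψ : V G ι} (hφ : FS φ) (hψ : FS ψ) : FS (φ + ψ) :=
  FS.of_subset (hφ.union hψ) fun x hx => by
    simp only [Set.mem_union, Function.mem_support, not_or, not_not] at hx
    simp [hx.1, hx.2]

theorem FS.sub {φ ψ : V G ι} (hφ : FS φ) (hψ : FS ψ) : FS (φ - ψ) :=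
  FS.of_subset (hφ.union hψ) fun x hx => by
    simp only [Set.mem_union, Function.mem_support, not_or, not_not] at hx
    simp [hx.1, hx.2]

theorem FS.mn {φ ψ : V G ι} (hφ : FS φ) : FS (mn φ ψ) :=
  FS.of_subset hφ fun x hx => by
    simp only [Function.mem_support, not_not] at hx
    funext i
    simp [DS.mn, hx]

theorem norm_mn (φ ψ : V G ι) (x : G) (i : ι) : ‖mn φ ψ x i‖ = min ‖φ x i‖ ‖ψ x i‖ := by
  unfold mn
  rw [Complex.norm_real, Real.norm_eq_abs, abs_of_nonneg (le_min (norm_nonneg _) (norm_nonneg _))]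

/-- a common finset for finitely many vectors -/
theorem FS.exists2 {φ ψ : V G ι} (hφ : FS φ) (hψ : FS ψ) :
    ∃ s : Finset G, (∀ x, x ∉ s → φ x = 0) ∧ (∀ x, x ∉ s → ψ x = 0) := by
  classical
  refine ⟨hφ.toFinset ∪ hψ.toFinset, fun x hx => ?_, fun x hx => ?_⟩ <;>
  simp only [Finset.mem_union, Set.Finite.mem_toFinset, Function.mem_support, not_or,
    not_not] at hx
  exacts [hx.1, hx.2]

variable [Fintype ι]

theorem nrm_term_zero {p : ℝ} (hp : 0 < p) {φ : V G ι} {x : G} (h : φ x = 0) :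
    ∑ i, ‖φ x i‖ ^ p = 0 := by
  simp [h, hp.ne']

theorem nrm_eq_sum {p : ℝ} (hp : 0 < p) {φ : V G ι} {s : Finset G} (h : ∀ x, x ∉ s → φ x = 0) :
    nrm p φ = ∑ x ∈ s, ∑ i, ‖φ x i‖ ^ p :=
  tsum_eq_sum fun x hx => nrm_term_zero hp (h x hx)

theorem nrm_nonneg (p : ℝ) (φ : V G ι) : 0 ≤ nrm p φ :=
  tsum_nonneg fun _ => Finset.sum_nonneg fun _ _ => Real.rpow_nonneg (norm_nonneg _) _

theorem nrm_mono {p : ℝ} (hp : 0 < p) {φ ψ : V G ι} (hψ : FS ψ)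
    (h : ∀ x i, ‖φ x i‖ ≤ ‖ψ x i‖) : nrm p φ ≤ nrm p ψ := by
  have hφ : ∀ x, x ∉ hψ.toFinset → φ x = 0 := fun x hx => by
    simp only [Set.Finite.mem_toFinset, Function.mem_support, not_not] at hx
    funext i
    have := h x i
    rw [hx] at this
    simpa using this
  have hψ' : ∀ x, x ∉ hψ.toFinset → ψ x = 0 := fun x hx => by
    simpa only [Set.Finite.mem_toFinset, Function.mem_support, not_not] using hx
  rw [nrm_eq_sum hp hφ, nrm_eq_sum hp hψ']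
  exact Finset.sum_le_sum fun x _ => Finset.sum_le_sum fun i _ =>
    Real.rpow_le_rpow (norm_nonneg _) (h x i) hp.le

/-- Clarkson -/
theorem nrm_clark {p : ℝ} (hp : 1 < p) (hp2 : p < 2) {φ ψ : V G ι} (hφ : FS φ) (hψ : FS ψ) :
    nrm p (φ + ψ) + nrm p (φ - ψ) ≤ 2 * (nrm p φ + nrm p ψ) := by
  have hp0 : 0 < p := by linarith
  obtain ⟨s, h1, h2⟩ := hφ.exists2 hψ
  rw [nrm_eq_sum hp0 (φ := φ + ψ) (s := s) fun x hx => by simp [h1 x hx, h2 x hx],
    nrm_eq_sum hp0 (φ := φ - ψ) (s := s) fun x hx => by simp [h1 x hx, h2 x hx],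
    nrm_eq_sum hp0 h1, nrm_eq_sum hp0 h2, ← Finset.sum_add_distrib, ← Finset.sum_add_distrib,
    Finset.mul_sum]
  refine Finset.sum_le_sum fun x _ => ?_
  rw [← Finset.sum_add_distrib, ← Finset.sum_add_distrib, Finset.mul_sum]
  exact Finset.sum_le_sum fun i _ => cx_clark p hp hp2 _ _

/-- the gap -/
theorem nrm_gap {p : ℝ} (hp : 1 < p) (hp2 : p < 2) {φ ψ : V G ι} (hφ : FS φ) (hψ : FS ψ) :
    (1 - p / 2) * nrm p (mn φ ψ) ≤
      nrm p φ + nrm p ψ - (nrm p (φ + ψ) + nrm p (φ - ψ)) / 2 := by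
  have hp0 : 0 < p := by linarith
  obtain ⟨s, h1, h2⟩ := hφ.exists2 hψ
  rw [nrm_eq_sum hp0 (φ := φ + ψ) (s := s) fun x hx => by simp [h1 x hx, h2 x hx],
    nrm_eq_sum hp0 (φ := φ - ψ) (s := s) fun x hx => by simp [h1 x hx, h2 x hx],
    nrm_eq_sum hp0 (φ := mn φ ψ) (s := s) fun x hx => by funext i; simp [mn, h1 x hx],
    nrm_eq_sum hp0 h1, nrm_eq_sum hp0 h2, ← Finset.sum_add_distrib, ← Finset.sum_add_distrib,
    Finset.mul_sum, Finset.sum_div, ← Finset.sum_sub_distrib]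
  refine Finset.sum_le_sum fun x _ => ?_
  rw [← Finset.sum_add_distrib, ← Finset.sum_add_distrib, Finset.mul_sum, Finset.sum_div,
    ← Finset.sum_sub_distrib]
  refine Finset.sum_le_sum fun i _ => ?_
  rw [norm_mn]
  exact cx_gap p hp hp2 _ _

/-- the minimum is at most the mean -/
theorem nrm_mn_le {p : ℝ} (hp : 1 < p) {φ ψ : V G ι} (hφ : FS φ) (hψ : FS ψ) :
    nrm p (mn φ ψ) ≤ (nrm p φ + nrm p ψ) / 2 := by
  have hp0 : 0 < p := by linarith
  have h1 : nrm p (mn φ ψ) ≤ nrm p φ := nrm_mono hp0 hφ fun x i => by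
    rw [norm_mn]; exact min_le_left _ _
  have h2 : nrm p (mn φ ψ) ≤ nrm p ψ := nrm_mono hp0 hψ fun x i => by
    rw [norm_mn]; exact min_le_right _ _
  linarith

/-- Minkowski -/
theorem nrm_mink {p : ℝ} (hp : 1 < p) {χ φ ψ : V G ι} (hφ : FS φ) (hψ : FS ψ)
    (h : ∀ x i, ‖χ x i‖ ≤ ‖φ x i‖ + ‖ψ x i‖) :
    (nrm p χ) ^ (1 / p) ≤ (nrm p φ) ^ (1 / p) + (nrm p ψ) ^ (1 / p) := by
  have hp0 : 0 < p := by linarith
  obtain ⟨s, h1, h2⟩ := hφ.exists2 hψ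
  have h3 : ∀ x, x ∉ s → χ x = 0 := fun x hx => by
    funext i
    have := h x i
    rw [h1 x hx, h2 x hx] at this
    simpa using this
  rw [nrm_eq_sum hp0 h1, nrm_eq_sum hp0 h2, nrm_eq_sum hp0 h3]
  rw [← Finset.sum_product', ← Finset.sum_product', ← Finset.sum_product']
  have hm := Real.Lp_add_le (s ×ˢ (Finset.univ : Finset ι)) (fun y => ‖φ y.1 y.2‖)
    (fun y => ‖ψ y.1 y.2‖) hp.le
  simp only [abs_norm] at hm
  refine le_trans ?_ hm
  refine Real.rpow_le_rpow (Finset.sum_nonneg fun _ _ => Real.rpow_nonneg (norm_nonneg _) _) ?_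
    (by positivity)
  refine Finset.sum_le_sum fun y _ => ?_
  refine Real.rpow_le_rpow (norm_nonneg _) ?_ hp0.le
  rw [abs_of_nonneg (by positivity)]
  exact h y.1 y.2

/-- the crude triangle inequality -/
theorem nrm_quasi {p : ℝ} (hp : 1 < p) {χ φ ψ : V G ι} (hφ : FS φ) (hψ : FS ψ)
    (h : ∀ x i, ‖χ x i‖ ≤ ‖φ x i‖ + ‖ψ x i‖) :
    nrm p χ ≤ 2 ^ (p - 1) * (nrm p φ + nrm p ψ) := by
  have hp0 : 0 < p := by linarith
  obtain ⟨s, h1, h2⟩ := hφ.exists2 hψ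
  have h3 : ∀ x, x ∉ s → χ x = 0 := fun x hx => by
    funext i
    have := h x i
    rw [h1 x hx, h2 x hx] at this
    simpa using this
  rw [nrm_eq_sum hp0 h1, nrm_eq_sum hp0 h2, nrm_eq_sum hp0 h3, ← Finset.sum_add_distrib,
    Finset.mul_sum]
  refine Finset.sum_le_sum fun x _ => ?_
  rw [← Finset.sum_add_distrib, Finset.mul_sum]
  refine Finset.sum_le_sum fun i _ => ?_
  have h4 : ‖χ x i‖ ^ p ≤ (‖φ x i‖ + ‖ψ x i‖) ^ p :=
    Real.rpow_le_rpow (norm_nonneg _) (h x i) hp0.le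
  refine h4.trans ?_
  have h5 := NNReal.rpow_add_le_mul_rpow_add_rpow ‖φ x i‖₊ ‖ψ x i‖₊ hp.le
  exact_mod_cast h5

theorem nrm_smul (p : ℝ) (a : ℂ) (φ : V G ι) : nrm p (a • φ) = ‖a‖ ^ p * nrm p φ := by
  unfold nrm
  rw [← tsum_mul_left]
  refine tsum_congr fun x => ?_
  rw [Finset.mul_sum]
  refine Finset.sum_congr rfl fun i _ => ?_
  rw [Pi.smul_apply, Pi.smul_apply, smul_eq_mul, norm_mul,
    Real.mul_rpow (norm_nonneg _) (norm_nonneg _)]

end Pool.Agent.DS
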