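import Pool.Agent.Lib.MP_830418_an.Diss.Cx

/-!
Dissipation inequality (Lemma 1 of MP_830418_full_h60.md), general form: linear maps
`S 0, ..., S (M-1)`, `P` on vectors `G → ι → ℂ` and sets of windows `W s`.
`|D z0|^p ≤ 2^(p-1) (2^M B + C_p (2^M)^p loss)`, `loss = B - 2^(-(M+1)) (|P a_M|^p + |P b_M|^p)`.
-/

open Finset

namespace Pool.Agent.DS

universe u v

variable {G : Type u} {ι : Type v} [Fintype ι]

/-- `a_0 = z0 + z1, b_0 = z0 - z1, a_{s+1} = a_s + S_s b_s, b_{s+1} = a_s - S_s b_s` -/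
def ab (S : ℕ → (V G ι →ₗ[ℂ] V G ι)) (z0 z1 : V G ι) : ℕ → V G ι × V G ι
  | 0 => (z0 + z1, z0 - z1)
  | s + 1 => ((ab S z0 z1 s).1 + S s (ab S z0 z1 s).2,
      (ab S z0 z1 s).1 - S s (ab S z0 z1 s).2)

/-- `D_s = (1 + S_{s-1}) ... (1 + S_0)` -/
def Dp (S : ℕ → (V G ι →ₗ[ℂ] V G ι)) : ℕ → (V G ι →ₗ[ℂ] V G ι)
  | 0 => LinearMap.id
  | s + 1 => Dp S s + (S s).comp (Dp S s)

/-- the window system -/
structure Win (p : ℝ) (M : ℕ) (S : ℕ → (V G ι →ₗ[ℂ] V G ι)) (P : V G ι →ₗ[ℂ] V G ι)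
    (W : ℕ → Set (V G ι →ₗ[ℂ] V G ι)) : Prop where
  one : LinearMap.id ∈ W M
  down : ∀ s < M, ∀ u ∈ W (s + 1), u ∈ W s
  comp : ∀ s < M, ∀ u ∈ W (s + 1), u.comp (S s) ∈ W s
  fs : ∀ s ≤ M, ∀ u ∈ W s, ∀ φ, FS φ → FS (u φ)
  fsS : ∀ s < M, ∀ φ, FS φ → FS (S s φ)
  le : ∀ s ≤ M, ∀ u ∈ W s, ∀ φ, FS φ → nrm p (u φ) ≤ nrm p φ
  P_le : ∀ s ≤ M, ∀ u ∈ W s, ∀ φ, FS φ → nrm p (P φ) ≤ nrm p (u φ)
  S_le : ∀ s, ∀ u ∈ W s, ∀ r, s ≤ r → r < M → ∀ φ, FS φ → nrm p (u (S r φ)) ≤ nrm p (u φ)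

theorem ab_fs {p : ℝ} {M : ℕ} {S : ℕ → (V G ι →ₗ[ℂ] V G ι)} {P : V G ι →ₗ[ℂ] V G ι}
    {W : ℕ → Set (V G ι →ₗ[ℂ] V G ι)} (h : Win p M S P W) {z0 z1 : V G ι} (h0 : FS z0)
    (h1 : FS z1) : ∀ s ≤ M, FS (ab S z0 z1 s).1 ∧ FS (ab S z0 z1 s).2
  | 0, _ => ⟨h0.add h1, h0.sub h1⟩
  | s + 1, hs => by
    obtain ⟨i1, i2⟩ := ab_fs h h0 h1 s (by omega)
    exact ⟨i1.add (h.fsS s (by omega) _ i2), i1.sub (h.fsS s (by omega) _ i2)⟩

/-- `β_{s+1}(u) ≤ |u a_s|^p + |u S_s b_s|^p` doubled -/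
theorem beta_step {p : ℝ} (hp : 1 < p) (hp2 : p < 2) {M : ℕ} {S : ℕ → (V G ι →ₗ[ℂ] V G ι)}
    {P : V G ι →ₗ[ℂ] V G ι} {W : ℕ → Set (V G ι →ₗ[ℂ] V G ι)} (h : Win p M S P W)
    {z0 z1 : V G ι} (h0 : FS z0) (h1 : FS z1) (s : ℕ) (hs : s ≤ M) (u : V G ι →ₗ[ℂ] V G ι)
    (hu : u ∈ W s) (r : ℕ) (hsr : s ≤ r) (hr : r < M) :
    nrm p (u (ab S z0 z1 (r + 1)).1) + nrm p (u (ab S z0 z1 (r + 1)).2) ≤
      2 * (nrm p (u (ab S z0 z1 r).1) + nrm p (u (ab S z0 z1 r).2)) := by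
  obtain ⟨i1, i2⟩ := ab_fs h h0 h1 r hr.le
  have e1 : u (ab S z0 z1 (r + 1)).1 = u (ab S z0 z1 r).1 + u (S r (ab S z0 z1 r).2) := by
    rw [← map_add]; rfl
  have e2 : u (ab S z0 z1 (r + 1)).2 = u (ab S z0 z1 r).1 - u (S r (ab S z0 z1 r).2) := by
    rw [← map_sub]; rfl
  rw [e1, e2]
  have hc := nrm_clark hp hp2 (h.fs s hs u hu _ i1) (h.fs s hs u hu _ (h.fsS r hr _ i2))
  have hd := h.S_le s u hu r hsr hr _ i2
  linarith

theorem beta_upper {p : ℝ} (hp : 1 < p) (hp2 : p < 2) {M : ℕ} {S : ℕ → (V G ι →ₗ[ℂ] V G ι)}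
    {P : V G ι →ₗ[ℂ] V G ι} {W : ℕ → Set (V G ι →ₗ[ℂ] V G ι)} (h : Win p M S P W)
    {z0 z1 : V G ι} (h0 : FS z0) (h1 : FS z1) : ∀ s ≤ M, ∀ u ∈ W s,
    nrm p (u (ab S z0 z1 s).1) + nrm p (u (ab S z0 z1 s).2) ≤
      2 ^ (s + 1) * (nrm p z0 + nrm p z1)
  | 0, hs, u, hu => by
    have e1 : u (ab S z0 z1 0).1 = u z0 + u z1 := by rw [← map_add]; rfl
    have e2 : u (ab S z0 z1 0).2 = u z0 - u z1 := by rw [← map_sub]; rfl
    rw [e1, e2]
    have hc := nrm_clark hp hp2 (h.fs 0 hs u hu _ h0) (h.fs 0 hs u hu _ h1)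
    have hd := h.le 0 hs u hu _ h0
    have he := h.le 0 hs u hu _ h1
    norm_num
    linarith
  | s + 1, hs, u, hu => by
    have hu' := h.down s (by omega) u hu
    have ih := beta_upper hp hp2 h h0 h1 s (by omega) u hu'
    have := beta_step hp hp2 h h0 h1 s (by omega) u hu' s le_rfl (by omega)
    rw [pow_succ]
    linarith

theorem beta_lower {p : ℝ} (hp : 1 < p) (hp2 : p < 2) {M : ℕ} {S : ℕ → (V G ι →ₗ[ℂ] V G ι)}
    {P : V G ι →ₗ[ℂ] V G ι} {W : ℕ → Set (V G ι →ₗ[ℂ] V G ι)} (h : Win p M S P W)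
    {z0 z1 : V G ι} (h0 : FS z0) (h1 : FS z1) (s : ℕ) (hs : s ≤ M) (u : V G ι →ₗ[ℂ] V G ι)
    (hu : u ∈ W s) :
    2 ^ (s + 1) * ((nrm p (P (ab S z0 z1 M).1) + nrm p (P (ab S z0 z1 M).2)) / 2 ^ (M + 1)) ≤
      nrm p (u (ab S z0 z1 s).1) + nrm p (u (ab S z0 z1 s).2) := by
  have key : ∀ r, s ≤ r → r ≤ M →
      nrm p (u (ab S z0 z1 r).1) + nrm p (u (ab S z0 z1 r).2) ≤
      2 ^ (r - s) * (nrm p (u (ab S z0 z1 s).1) + nrm p (u (ab S z0 z1 s).2)) := by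
    intro r hsr
    induction r, hsr using Nat.le_induction with
    | base => intro _; simp
    | succ r hsr ih =>
      intro hr
      have := beta_step hp hp2 h h0 h1 s hs u hu r hsr (by omega)
      have ih' := ih (by omega)
      rw [Nat.succ_sub hsr, pow_succ]
      linarith
  have h2 := key M hs le_rfl
  obtain ⟨i1, i2⟩ := ab_fs h h0 h1 M le_rfl
  have h3 := h.P_le s hs u hu _ i1
  have h4 := h.P_le s hs u hu _ i2
  have h5 : (2 : ℝ) ^ (M + 1) = 2 ^ (s + 1) * 2 ^ (M - s) := by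
    rw [← pow_add]; congr 1; omega
  rw [h5, ← mul_div_assoc, div_le_iff₀ (by positivity)]
  have h6 : (0 : ℝ) < 2 ^ (s + 1) := by positivity
  nlinarith [h2, h3, h4, mul_le_mul_of_nonneg_left (h3.trans_eq rfl) h6.le,
    mul_le_mul_of_nonneg_left h2 h6.le, mul_le_mul_of_nonneg_left h4 h6.le]

/-- `ρ = 2^(-(1-1/p))` -/
noncomputable def rho (p : ℝ) : ℝ := 2 ^ (-(1 - 1 / p))

/-- `κ_s` -/
noncomputable def kap (p : ℝ) (s : ℕ) : ℝ := 1 + 2 * ∑ i ∈ range s, rho p ^ (i + 1)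

theorem rho_pos (p : ℝ) : 0 < rho p := Real.rpow_pos_of_pos two_pos _

theorem rho_lt {p : ℝ} (hp : 1 < p) : rho p < 1 := by
  unfold rho
  refine Real.rpow_lt_one_of_one_lt_of_neg one_lt_two ?_
  have : 1 / p < 1 := by rw [div_lt_one (by linarith)]; exact hp
  linarith

theorem kap_le {p : ℝ} (hp : 1 < p) (s : ℕ) : kap p s ≤ 1 + 2 * (rho p / (1 - rho p)) := by
  have h1 := rho_pos p
  have h2 := rho_lt hp
  have h3 : ∑ i ∈ range s, rho p ^ (i + 1) ≤ rho p / (1 - rho p) := by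
    have e : ∀ i ∈ range s, rho p ^ (i + 1) = rho p * rho p ^ i := fun i _ => by ring
    rw [Finset.sum_congr rfl e, ← Finset.mul_sum, div_eq_mul_inv]
    refine mul_le_mul_of_nonneg_left ?_ h1.le
    have hg := hasSum_geometric_of_lt_one h1.le h2
    exact (sum_le_hasSum (range s) (fun i _ => pow_nonneg h1.le i) hg)
  unfold kap
  linarith

theorem kap_nonneg (p : ℝ) (s : ℕ) : 0 ≤ kap p s := by
  unfold kap
  have : 0 ≤ ∑ i ∈ range s, rho p ^ (i + 1) :=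
    Finset.sum_nonneg fun i _ => pow_nonneg (rho_pos p).le _
  linarith

theorem kap_succ {p : ℝ} (hp : 1 < p) (s : ℕ) :
    kap p (s + 1) * 2 ^ (s + 1) = 2 * (kap p s * 2 ^ s) + 2 * (2 : ℝ) ^ (((s : ℝ) + 1) / p) := by
  have e : rho p ^ (s + 1) * (2 : ℝ) ^ (s + 1) = (2 : ℝ) ^ (((s : ℝ) + 1) / p) := by
    unfold rho
    rw [← Real.rpow_natCast, ← Real.rpow_natCast, ← Real.rpow_mul two_pos.le,
      ← Real.rpow_add two_pos]
    congr 1
    push_cast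
    field_simp
    ring
  unfold kap
  rw [Finset.sum_range_succ, ← e]
  ring

/-- the constant -/
noncomputable def Cp (p : ℝ) : ℝ := (1 + 2 * (rho p / (1 - rho p))) ^ p / (1 - p / 2)

theorem Cp_nonneg {p : ℝ} (hp : 1 < p) (hp2 : p < 2) : 0 ≤ Cp p := by
  unfold Cp
  have h1 := rho_pos p
  have h2 := rho_lt hp
  have : 0 ≤ rho p / (1 - rho p) := div_nonneg h1.le (by linarith)
  refine div_nonneg (Real.rpow_nonneg (by linarith) _) (by linarith)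

theorem two_rpow_aux {p : ℝ} (hp : 1 < p) (x : ℝ) (hx : 0 ≤ x) :
    ((2 : ℝ) ^ p * x) ^ (1 / p) = 2 * x ^ (1 / p) := by
  rw [Real.mul_rpow (by positivity) hx, ← Real.rpow_mul two_pos.le,
    mul_one_div_cancel (by linarith), Real.rpow_one]

/-- the window induction -/
theorem window {p : ℝ} (hp : 1 < p) (hp2 : p < 2) {M : ℕ} {S : ℕ → (V G ι →ₗ[ℂ] V G ι)}
    {P : V G ι →ₗ[ℂ] V G ι} {W : ℕ → Set (V G ι →ₗ[ℂ] V G ι)} (h : Win p M S P W)
    {z0 z1 : V G ι} (h0 : FS z0) (h1 : FS z1) (l : ℝ)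
    (hl : l = nrm p z0 + nrm p z1 -
      (nrm p (P (ab S z0 z1 M).1) + nrm p (P (ab S z0 z1 M).2)) / 2 ^ (M + 1)) (hl0 : 0 ≤ l) :
    ∀ s ≤ M, ∀ u ∈ W s, ∃ e : V G ι, FS e ∧
      (∀ x i, ‖u (Dp S s z0) x i‖ ≤
        min ‖u (ab S z0 z1 s).1 x i‖ ‖u (ab S z0 z1 s).2 x i‖ + ‖e x i‖) ∧
      nrm p e ^ (1 / p) ≤ kap p s * 2 ^ s * (l / (1 - p / 2)) ^ (1 / p)
  | 0, hs, u, hu => by
    have hp0 : 0 < p := by linarith
    have hc : 0 < 1 - p / 2 := by linarith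
    refine ⟨mn (u z0) (u z1), (h.fs 0 hs u hu _ h0).mn, ?_, ?_⟩
    · intro x i
      have e1 : u (ab S z0 z1 0).1 = u z0 + u z1 := by rw [← map_add]; rfl
      have e2 : u (ab S z0 z1 0).2 = u z0 - u z1 := by rw [← map_sub]; rfl
      have e0 : Dp S 0 z0 = z0 := rfl
      rw [e1, e2, e0, norm_mn]
      exact cx_min1 _ _
    · have hg := nrm_gap hp hp2 (h.fs 0 hs u hu _ h0) (h.fs 0 hs u hu _ h1)
      have hlow := beta_lower hp hp2 h h0 h1 0 hs u hu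
      have e1 : u (ab S z0 z1 0).1 = u z0 + u z1 := by rw [← map_add]; rfl
      have e2 : u (ab S z0 z1 0).2 = u z0 - u z1 := by rw [← map_sub]; rfl
      rw [e1, e2] at hlow
      have hd := h.le 0 hs u hu _ h0
      have he := h.le 0 hs u hu _ h1
      have h6 : nrm p (mn (u z0) (u z1)) ≤ l / (1 - p / 2) := by
        rw [le_div_iff₀ hc]
        norm_num at hlow
        linarith
      have h7 : kap p 0 * 2 ^ 0 = 1 := by simp [kap]
      rw [h7, one_mul]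
      exact Real.rpow_le_rpow (nrm_nonneg _ _) h6 (by positivity)
  | s + 1, hs, u, hu => by
    have hp0 : 0 < p := by linarith
    have hc : 0 < 1 - p / 2 := by linarith
    have hsM : s < M := by omega
    have hu1 := h.down s hsM u hu
    have hu2 := h.comp s hsM u hu
    obtain ⟨e1, f1, p1, n1⟩ := window hp hp2 h h0 h1 l hl hl0 s hsM.le u hu1
    obtain ⟨e2, f2, p2, n2⟩ := window hp hp2 h h0 h1 l hl hl0 s hsM.le (u.comp (S s)) hu2
    obtain ⟨i1, i2⟩ := ab_fs h h0 h1 s hsM.le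
    set A : V G ι := u (ab S z0 z1 s).1 with hA
    set B : V G ι := u (S s (ab S z0 z1 s).2) with hB
    have hAf : FS A := h.fs s hsM.le u hu1 _ i1
    have hBf : FS B := h.fs s hsM.le u hu1 _ (h.fsS s hsM _ i2)
    have ea : u (ab S z0 z1 (s + 1)).1 = A + B := by rw [hA, hB, ← map_add]; rfl
    have eb : u (ab S z0 z1 (s + 1)).2 = A - B := by rw [hA, hB, ← map_sub]; rfl
    have eD : u (Dp S (s + 1) z0) = u (Dp S s z0) + (u.comp (S s)) (Dp S s z0) := by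
      rw [LinearMap.comp_apply, ← map_add]; rfl
    set e12 : V G ι := fun x i => ((‖e1 x i‖ + ‖e2 x i‖ : ℝ) : ℂ) with he12
    set m2 : V G ι := (2 : ℂ) • mn A B with hm2
    set e : V G ι := fun x i => ((‖e12 x i‖ + ‖m2 x i‖ : ℝ) : ℂ) with he
    have n12 : ∀ x i, ‖e12 x i‖ = ‖e1 x i‖ + ‖e2 x i‖ := fun x i => by
      rw [he12]
      simp only
      rw [Complex.norm_real, Real.norm_eq_abs, abs_of_nonneg (by positivity)]
    have ne : ∀ x i, ‖e x i‖ = ‖e12 x i‖ + ‖m2 x i‖ := fun x i => by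
      rw [he]
      simp only
      rw [Complex.norm_real, Real.norm_eq_abs, abs_of_nonneg (by positivity)]
    have nm : ∀ x i, ‖m2 x i‖ = 2 * min ‖A x i‖ ‖B x i‖ := fun x i => by
      rw [hm2, Pi.smul_apply, Pi.smul_apply, smul_eq_mul, norm_mul, norm_mn]
      norm_num
    have hm2f : FS m2 := FS.of_subset (FS.mn (ψ := B) hAf) fun x hx => by
      simp only [Function.mem_support, not_not] at hx
      simp [hm2, hx]
    have h12f : FS e12 := FS.of_subset (f1.union f2) fun x hx => by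
      simp only [Set.mem_union, Function.mem_support, not_or, not_not] at hx
      funext i
      simp [he12, hx.1, hx.2]
    have hef : FS e := FS.of_subset (h12f.union hm2f) fun x hx => by
      simp only [Set.mem_union, Function.mem_support, not_or, not_not] at hx
      funext i
      simp [he, hx.1, hx.2]
    refine ⟨e, hef, ?_, ?_⟩
    · intro x i
      rw [ea, eb, eD, ne, n12, nm]
      have q1 := p1 x i
      have q2 := p2 x i
      have q3 := cx_min2 (A x i) (B x i)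
      have q4 : ‖(u (Dp S s z0) + (u.comp (S s)) (Dp S s z0)) x i‖ ≤
          ‖u (Dp S s z0) x i‖ + ‖(u.comp (S s)) (Dp S s z0) x i‖ := norm_add_le _ _
      have q5 : min ‖u (ab S z0 z1 s).1 x i‖ ‖u (ab S z0 z1 s).2 x i‖ ≤ ‖A x i‖ :=
        min_le_left _ _
      have q6 : min ‖(u.comp (S s)) (ab S z0 z1 s).1 x i‖ ‖(u.comp (S s)) (ab S z0 z1 s).2 x i‖
          ≤ ‖B x i‖ := min_le_right _ _
      have q7 : (A + B) x i = A x i + B x i := rfl
      have q8 : (A - B) x i = A x i - B x i := rfl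
      rw [q7, q8]
      linarith
    · have m1 := nrm_mink hp (χ := e) h12f hm2f fun x i => (ne x i).le
      have m12 := nrm_mink hp (χ := e12) f1 f2 fun x i => (n12 x i).le
      have hg := nrm_gap hp hp2 hAf hBf
      have hup := beta_upper hp hp2 h h0 h1 s hsM.le u hu1
      have hlow := beta_lower hp hp2 h h0 h1 (s + 1) hs u hu
      rw [ea, eb] at hlow
      have hBle : nrm p B ≤ nrm p (u (ab S z0 z1 s).2) := h.S_le s u hu1 s le_rfl hsM _ i2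
      have h6 : nrm p (mn A B) ≤ 2 ^ (s + 1) * (l / (1 - p / 2)) := by
        rw [← mul_div_assoc, le_div_iff₀ hc, hl]
        have e4 : (2 : ℝ) ^ (s + 1 + 1) = 2 * 2 ^ (s + 1) := by ring
        rw [e4] at hlow
        nlinarith [hg, hup, hlow, hBle]
      have hlc : 0 ≤ l / (1 - p / 2) := div_nonneg hl0 hc.le
      have h7 : nrm p m2 ^ (1 / p) ≤
          2 * ((2 : ℝ) ^ (((s : ℝ) + 1) / p) * (l / (1 - p / 2)) ^ (1 / p)) := by
        rw [hm2, nrm_smul, show ‖(2 : ℂ)‖ = 2 by norm_num, two_rpow_aux hp _ (nrm_nonneg _ _)]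
        refine mul_le_mul_of_nonneg_left ?_ two_pos.le
        refine (Real.rpow_le_rpow (nrm_nonneg _ _) h6 (by positivity)).trans_eq ?_
        rw [Real.mul_rpow (by positivity) hlc, ← Real.rpow_natCast, ← Real.rpow_mul two_pos.le]
        congr 2
        push_cast
        ring
      have h8 := kap_succ hp s
      have h9 : kap p (s + 1) * 2 ^ (s + 1) * (l / (1 - p / 2)) ^ (1 / p) =
          2 * (kap p s * 2 ^ s * (l / (1 - p / 2)) ^ (1 / p)) +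
          2 * ((2 : ℝ) ^ (((s : ℝ) + 1) / p) * (l / (1 - p / 2)) ^ (1 / p)) := by
        rw [h8]; ring
      rw [h9]
      linarith

/-- **Dissipation inequality.** -/
theorem diss {p : ℝ} (hp : 1 < p) (hp2 : p < 2) {M : ℕ} {S : ℕ → (V G ι →ₗ[ℂ] V G ι)}
    {P : V G ι →ₗ[ℂ] V G ι} {W : ℕ → Set (V G ι →ₗ[ℂ] V G ι)} (h : Win p M S P W)
    {z0 z1 : V G ι} (h0 : FS z0) (h1 : FS z1) :
    nrm p (Dp S M z0) ≤ 2 ^ (p - 1) * (2 ^ M * (nrm p z0 + nrm p z1) +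
      Cp p * ((2 : ℝ) ^ M) ^ p * (nrm p z0 + nrm p z1 -
        (nrm p (P (ab S z0 z1 M).1) + nrm p (P (ab S z0 z1 M).2)) / 2 ^ (M + 1))) := by
  have hp0 : 0 < p := by linarith
  have hc : 0 < 1 - p / 2 := by linarith
  set l : ℝ := nrm p z0 + nrm p z1 -
    (nrm p (P (ab S z0 z1 M).1) + nrm p (P (ab S z0 z1 M).2)) / 2 ^ (M + 1) with hl
  have hup := beta_upper hp hp2 h h0 h1 M le_rfl _ h.one
  have hlow := beta_lower hp hp2 h h0 h1 M le_rfl _ h.one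
  have hl0 : 0 ≤ l := by
    have h3 : (0 : ℝ) < 2 ^ (M + 1) := by positivity
    have h4 := hlow.trans hup
    have h5 := le_of_mul_le_mul_left h4 h3
    rw [hl]
    linarith
  obtain ⟨e, fe, pe, ne⟩ := window hp hp2 h h0 h1 l hl hl0 M le_rfl _ h.one
  simp only [LinearMap.id_apply] at pe hup
  obtain ⟨i1, i2⟩ := ab_fs h h0 h1 M le_rfl
  have h5 := nrm_quasi hp (χ := Dp S M z0) (i1.mn (ψ := (ab S z0 z1 M).2)) fe
    fun x i => by rw [norm_mn]; exact pe x i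
  have h6 := nrm_mn_le hp i1 i2
  have h7 : nrm p e ≤ Cp p * ((2 : ℝ) ^ M) ^ p * l := by
    have h8 : nrm p e = (nrm p e ^ (1 / p)) ^ p := by
      rw [← Real.rpow_mul (nrm_nonneg _ _), one_div_mul_cancel hp0.ne', Real.rpow_one]
    rw [h8]
    refine (Real.rpow_le_rpow (Real.rpow_nonneg (nrm_nonneg _ _) _) ne hp0.le).trans ?_
    have hlc : 0 ≤ l / (1 - p / 2) := div_nonneg hl0 hc.le
    rw [Real.mul_rpow (mul_nonneg (kap_nonneg p M) (by positivity)) (Real.rpow_nonneg hlc _),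
      Real.mul_rpow (kap_nonneg p M) (by positivity), ← Real.rpow_mul hlc,
      one_div_mul_cancel hp0.ne', Real.rpow_one]
    have h9 : kap p M ^ p ≤ (1 + 2 * (rho p / (1 - rho p))) ^ p :=
      Real.rpow_le_rpow (kap_nonneg p M) (kap_le hp M) hp0.le
    unfold Cp
    have h10 : (1 + 2 * (rho p / (1 - rho p))) ^ p / (1 - p / 2) * ((2 : ℝ) ^ M) ^ p * l =
        (1 + 2 * (rho p / (1 - rho p))) ^ p * ((2 : ℝ) ^ M) ^ p * (l / (1 - p / 2)) := by ring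
    rw [h10]
    exact mul_le_mul_of_nonneg_right (mul_le_mul_of_nonneg_right h9 (by positivity)) hlc
  have h11 : nrm p (mn (ab S z0 z1 M).1 (ab S z0 z1 M).2) ≤
      2 ^ M * (nrm p z0 + nrm p z1) := by
    rw [pow_succ] at hup
    linarith
  refine h5.trans (mul_le_mul_of_nonneg_left (by linarith) (by positivity))

end Pool.Agent.DS
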