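import Pool.Agent.Lib.MP_830418_an.Diss.Main

/-!
The instance of the dissipation inequality for the powers of one contraction.
-/

open Finset

namespace Pool.Agent.DS

universe u v

variable {G : Type u} {ι : Type v} [Fintype ι]

/-- the windows of the powers -/
def Wpow (M : ℕ) (U : V G ι →ₗ[ℂ] V G ι) (s : ℕ) : Set (V G ι →ₗ[ℂ] V G ι) :=
  {u | ∃ h : ℕ, h + 2 ^ s ≤ 2 ^ M ∧ u = U ^ h}

theorem pow_fs {U : V G ι →ₗ[ℂ] V G ι} (hU : ∀ φ, FS φ → FS (U φ)) (h : ℕ) :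
    ∀ φ, FS φ → FS ((U ^ h) φ) := by
  induction h with
  | zero => intro φ hφ; simpa using hφ
  | succ h ih =>
    intro φ hφ
    rw [pow_succ', Module.End.mul_apply]
    exact hU _ (ih φ hφ)

theorem pow_nrm_le {p : ℝ} {U : V G ι →ₗ[ℂ] V G ι} (hU : ∀ φ, FS φ → FS (U φ))
    (hc : ∀ φ, FS φ → nrm p (U φ) ≤ nrm p φ) (h : ℕ) :
    ∀ φ, FS φ → nrm p ((U ^ h) φ) ≤ nrm p φ := by
  induction h with
  | zero => intro φ _; simp
  | succ h ih =>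
    intro φ hφ
    rw [pow_succ', Module.End.mul_apply]
    exact (hc _ (pow_fs hU h φ hφ)).trans (ih φ hφ)

/-- for `a ≤ b` the `b`-th power is smaller than the `a`-th one -/
theorem pow_nrm_anti {p : ℝ} {U : V G ι →ₗ[ℂ] V G ι} (hU : ∀ φ, FS φ → FS (U φ))
    (hc : ∀ φ, FS φ → nrm p (U φ) ≤ nrm p φ) {a b : ℕ} (hab : a ≤ b) (φ : V G ι) (hφ : FS φ) :
    nrm p ((U ^ b) φ) ≤ nrm p ((U ^ a) φ) := by
  obtain ⟨d, rfl⟩ := Nat.exists_eq_add_of_le' hab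
  rw [pow_add, Module.End.mul_apply]
  exact pow_nrm_le hU hc d _ (pow_fs hU a φ hφ)

theorem win_pow {p : ℝ} (M : ℕ) {U : V G ι →ₗ[ℂ] V G ι} (hU : ∀ φ, FS φ → FS (U φ))
    (hc : ∀ φ, FS φ → nrm p (U φ) ≤ nrm p φ) :
    Win p M (fun s => U ^ (2 ^ s)) (U ^ (2 ^ M)) (Wpow M U) where
  one := ⟨0, by simp, by simp; rfl⟩
  down := by
    rintro s hs u ⟨h, hh, rfl⟩
    refine ⟨h, ?_, rfl⟩
    have h1 : 2 ^ s ≤ 2 ^ (s + 1) := Nat.pow_le_pow_right (by norm_num) (by omega)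
    exact (Nat.add_le_add_left h1 h).trans hh
  comp := by
    rintro s hs u ⟨h, hh, rfl⟩
    refine ⟨h + 2 ^ s, ?_, ?_⟩
    · have h1 : 2 ^ (s + 1) = 2 ^ s + 2 ^ s := by ring
      rw [h1, ← add_assoc] at hh
      exact hh
    · rw [pow_add]
      rfl
  fs := by
    rintro s hs u ⟨h, hh, rfl⟩ φ hφ
    exact pow_fs hU h φ hφ
  fsS := by
    intro s hs φ hφ
    exact pow_fs hU _ φ hφ
  le := by
    rintro s hs u ⟨h, hh, rfl⟩ φ hφ
    exact pow_nrm_le hU hc h φ hφ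
  P_le := by
    rintro s hs u ⟨h, hh, rfl⟩ φ hφ
    exact pow_nrm_anti hU hc ((Nat.le_add_right _ _).trans hh) φ hφ
  S_le := by
    rintro s u ⟨h, hh, rfl⟩ r hsr hr φ hφ
    rw [← Module.End.mul_apply, ← pow_add]
    exact pow_nrm_anti hU hc (Nat.le_add_right _ _) φ hφ

end Pool.Agent.DS
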